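import Mathlib

/-! MP_7dd379_ag: ring-theoretic properties of `R(X) = R[X]_{m R[X]}` (helper66). -/

set_option linter.style.haveILetI false

namespace H66RX

open Polynomial IsLocalRing

section closed

attribute [local instance] Polynomial.algebra

/-- `R[X]` is integrally closed if `R` is. -/
theorem isIntegrallyClosed_polynomial (R : Type*) [CommRing R] [IsDomain R]
    [IsIntegrallyClosed R] : IsIntegrallyClosed R[X] := by
  let K := FractionRing R
  let L := FractionRing K[X]
  let φ : R[X] →+* K[X] := mapRingHom (algebraMap R K)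
  have hφ : Function.Injective φ := Polynomial.map_injective _ (IsFractionRing.injective R K)
  let ψ : R[X] →+* L := (algebraMap K[X] L).comp φ
  have hψ : Function.Injective ψ := (IsFractionRing.injective K[X] L).comp hφ
  let j : FractionRing R[X] →+* L := IsFractionRing.lift hψ
  have hj : ∀ f : R[X], j (algebraMap R[X] (FractionRing R[X]) f) = algebraMap K[X] L (φ f) :=
    fun f => IsFractionRing.lift_algebraMap hψ f
  have hjc : j.comp (algebraMap R[X] (FractionRing R[X])) = (algebraMap K[X] L).comp φ :=
    RingHom.ext hj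
  rw [isIntegrallyClosed_iff (FractionRing R[X])]
  intro x hx
  obtain ⟨p, hp, hpx⟩ := hx
  have h1 : eval₂ (algebraMap K[X] L) (j x) (p.map φ) = 0 := by
    rw [eval₂_map, ← hjc, ← Polynomial.hom_eval₂, hpx, map_zero]
  obtain ⟨y, hy⟩ := (isIntegrallyClosed_iff (R := K[X]) L).1 inferInstance
    (x := j x) ⟨p.map φ, hp.map φ, h1⟩
  have h2 : eval₂ φ y p = 0 := by
    apply IsFractionRing.injective K[X] L
    rw [Polynomial.hom_eval₂, hy, ← eval₂_map, h1, map_zero]
  have h3 : IsIntegral R[X] y := ⟨p, hp, h2⟩
  rw [Polynomial.isIntegral_iff_isIntegral_coeff] at h3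
  have h4 : ∀ n, ∃ c : R, algebraMap R K c = y.coeff n := fun n =>
    (isIntegrallyClosed_iff (R := R) K).1 inferInstance (h3 n)
  obtain ⟨g, hg⟩ : ∃ g : R[X], φ g = y := by
    have : y ∈ Polynomial.lifts (algebraMap R K) := by
      rw [Polynomial.lifts_iff_coeff_lifts]
      exact fun n => h4 n
    exact (Polynomial.mem_lifts y).1 this
  refine ⟨g, j.injective ?_⟩
  rw [hj, hg, hy]

end closed

variable (R : Type*) [CommRing R] [IsLocalRing R]

/-- extended maximal ideal -/
noncomputable abbrev mC : Ideal R[X] := (maximalIdeal R).map C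

instance : (mC R).IsPrime := Ideal.isPrime_map_C_of_isPrime

lemma mem_mC {f : R[X]} : f ∈ mC R ↔ ∀ i, f.coeff i ∈ maximalIdeal R := Ideal.mem_map_C_iff

variable (S : Type*) [CommRing S] [Algebra R[X] S] [IsLocalization.AtPrime S (mC R)]

include R in
theorem isLocalRing : IsLocalRing S := IsLocalization.AtPrime.isLocalRing S (mC R)

include R in
theorem isNoetherianRing [IsNoetherianRing R] : IsNoetherianRing S :=
  IsLocalization.isNoetherianRing (mC R).primeCompl S inferInstance

include R in
theorem isDomain [IsDomain R] : IsDomain S :=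
  IsLocalization.isDomain_of_le_nonZeroDivisors S (mC R).primeCompl_le_nonZeroDivisors

include R in
theorem isIntegrallyClosed [IsDomain R] [IsIntegrallyClosed R] : IsIntegrallyClosed S := by
  haveI := isIntegrallyClosed_polynomial R
  exact isIntegrallyClosed_of_isLocalization S (mC R).primeCompl
    (mC R).primeCompl_le_nonZeroDivisors

theorem ringKrullDim_eq [IsNoetherianRing R] : ringKrullDim S = ringKrullDim R := by
  rw [IsLocalization.AtPrime.ringKrullDim_eq_height (mC R) S, Polynomial.height_map_C,
    IsLocalRing.maximalIdeal_height_eq_ringKrullDim]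

theorem isUnit_iff (g : R[X]) : IsUnit (algebraMap R[X] S g) ↔ ∃ i, g.coeff i ∉ maximalIdeal R := by
  rw [IsLocalization.AtPrime.isUnit_to_map_iff S (mC R)]
  rw [Ideal.mem_primeCompl_iff, mem_mC]
  push Not
  rfl

include R in
theorem exists_div (y : S) : ∃ f g : R[X], IsUnit (algebraMap R[X] S g) ∧
    y * algebraMap R[X] S g = algebraMap R[X] S f := by
  obtain ⟨⟨f, g⟩, h⟩ := IsLocalization.surj (mC R).primeCompl y
  exact ⟨f, g, IsLocalization.map_units S g, h⟩

variable [Algebra R S] [IsScalarTower R R[X] S]

theorem maximalIdeal_eq [IsLocalRing S] :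
    (maximalIdeal R).map (algebraMap R S) = maximalIdeal S := by
  rw [IsScalarTower.algebraMap_eq R R[X] S, ← Ideal.map_map]
  exact IsLocalization.AtPrime.map_eq_maximalIdeal (mC R) S

theorem flat : Module.Flat R S := by
  haveI : Module.Flat R[X] S := IsLocalization.flat S (mC R).primeCompl
  exact Module.Flat.trans R R[X] S

theorem isLocalHom : IsLocalHom (algebraMap R S) := by
  constructor
  intro a ha
  rw [IsScalarTower.algebraMap_eq R R[X] S, RingHom.comp_apply, isUnit_iff R S] at ha
  obtain ⟨i, hi⟩ := ha
  rw [algebraMap_eq, coeff_C] at hi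
  split_ifs at hi
  · exact IsLocalRing.notMem_maximalIdeal.1 hi
  · exact absurd (zero_mem _) hi

theorem faithfullyFlat [IsLocalRing S] : Module.FaithfullyFlat R S := by
  haveI := flat R S
  haveI := isLocalHom R S
  exact Module.FaithfullyFlat.of_flat_of_isLocalHom

theorem comap_pow [IsLocalRing S] (n : ℕ) :
    (maximalIdeal S ^ n).comap (algebraMap R S) = maximalIdeal R ^ n := by
  haveI := faithfullyFlat R S
  rw [← maximalIdeal_eq R S, ← Ideal.map_pow]
  exact Ideal.comap_map_eq_self_of_faithfullyFlat _

include R in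
theorem infinite_residueField [IsLocalRing S] : Infinite (ResidueField S) := by
  let x : ResidueField S := residue S (algebraMap R[X] S X)
  let f : ℕ → ResidueField S := fun n => x ^ (n + 1)
  refine Infinite.of_injective f ?_
  have key : ∀ m n : ℕ, m < n → f m ≠ f n := by
    intro m n hmn h
    have h1 : residue S (algebraMap R[X] S (X ^ (n + 1) - X ^ (m + 1))) = 0 := by
      rw [map_sub, map_sub, map_pow, map_pow, map_pow, map_pow, sub_eq_zero]
      exact h.symm
    rw [residue_eq_zero_iff, mem_maximalIdeal, mem_nonunits_iff, isUnit_iff R S] at h1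
    apply h1
    refine ⟨n + 1, ?_⟩
    rw [coeff_sub, coeff_X_pow_self, coeff_X_pow, if_neg (by omega), sub_zero]
    exact (Ideal.ne_top_iff_one _).1 (maximalIdeal.isMaximal R).ne_top
  intro m n h
  rcases lt_trichotomy m n with hmn | hmn | hmn
  · exact absurd h (key m n hmn)
  · exact hmn
  · exact absurd h.symm (key n m hmn)

end H66RX
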